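import Pool.Agent.H28.Paving

set_option autoImplicit false

namespace Pool.Agent.Results.MP_35fef3_co.K4

open Finset

open Classical in
/-- `h_d(M) = ∑_{i=0}^d (-1)^(d-i) f_{i-1}(M)`, where `f_{i-1}` counts independent `i`-sets. -/
noncomputable def hTop {α : Type} [Fintype α] (M : Matroid α) (d : ℕ) : ℤ :=
  ∑ i ∈ range (d + 1), (-1) ^ (d - i) * (#{I : Finset α | M.Indep ↑I ∧ #I = i} : ℤ)

/-- The triangles of `K₄`, whose edges `12, 13, 14, 23, 24, 34` are numbered `0, …, 5`. -/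
def triangles : Finset (Finset (Fin 6)) := {{0, 1, 3}, {0, 2, 4}, {1, 2, 5}, {3, 4, 5}}

def bs : Fin 16 → Finset (Fin 6) := ![{0, 1, 2}, {0, 1, 4}, {0, 1, 5}, {0, 2, 3}, {0, 2, 5},
  {0, 3, 4}, {0, 3, 5}, {0, 4, 5}, {1, 2, 3}, {1, 2, 4}, {1, 3, 4}, {1, 3, 5}, {1, 4, 5},
  {2, 3, 4}, {2, 3, 5}, {2, 4, 5}]

def L : List (ℕ × ℤ) := [(65535, -1), (255, 1), (7943, 1), (58137, 1), (28008, 1), (46754, 1),
  (55508, 1), (7, -1), (25, -1), (104, -1), (162, -1), (212, -1), (769, -1), (3328, -1),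
  (5634, -1), (6148, -1), (24840, -1), (41472, -1), (49168, -1), (9248, -1), (18496, -1),
  (36992, -1), (1, 1), (2, 1), (4, 1), (8, 1), (16, 1), (32, 1), (64, 1), (128, 1), (256, 1),
  (512, 1), (1024, 1), (2048, 1), (4096, 1), (8192, 1), (16384, 1), (32768, 1)]

def mk (I : Finset (Fin 6)) : ℕ := Nat.ofBits fun i => decide (I ⊆ bs i)

def hm (m : ℕ) : ℤ := (L.map fun t => if m &&& t.1 = 0 then 0 else t.2).sum

lemma hL : ((univ.filter fun I => mk I ≠ 0).val.map fun I => (mk I, ((-1) ^ (3 - #I) : ℤ))) = (L : Multiset _) := by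
  decide +kernel

def cnt (m : ℕ) (l : List ℕ) : ℕ :=
  l.rec 0 fun k _ r => (Nat.beq (Nat.land m k) 0).rec (Nat.succ r) r

def P : List ℕ := [255, 7943, 58137, 28008, 46754, 55508, 1, 2, 4, 8, 16, 32, 64, 128, 256, 512,
  1024, 2048, 4096, 8192, 16384, 32768]

def Q : List ℕ := [65535, 7, 25, 104, 162, 212, 769, 3328, 5634, 6148, 24840, 41472, 49168, 9248,
  18496, 36992]

lemma cnt_eq (m : ℕ) (l : List ℕ) (s : ℤ) :
    (l.map fun k => if m &&& k = 0 then 0 else s).sum = cnt m l * s := by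
  induction l with
  | nil => simp [cnt]
  | cons k l ih =>
    have : cnt m (k :: l) = (Nat.beq (m &&& k) 0).rec (cnt m l + 1) (cnt m l) := rfl
    rw [List.map_cons, List.sum_cons, ih, this]
    by_cases h : m &&& k = 0
    · simp [h]
    · have h' : Nat.beq (m &&& k) 0 = false := by simpa [Bool.eq_false_iff] using h
      simp [h, h', add_mul, add_comm]

lemma hm_eq (m : ℕ) : hm m = cnt m P - cnt m Q := by
  have : L.Perm (P.map (fun k => (k, 1)) ++ Q.map fun k => (k, -1)) := by decide +kernel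
  rw [hm, (this.map _).sum_eq, List.map_append, List.sum_append, List.map_map, List.map_map]
  exact (congrArg₂ _ (cnt_eq m P 1) (cnt_eq m Q (-1))).trans (by ring)

lemma chk0 (c : ℕ) (hc : c < 16) : ∀ a < 16, ∀ b < 256,
    Nat.beq (cnt (4096 * c + 256 * a + b) P) (cnt (4096 * c + 256 * a + b) Q + 5) = true →
      ∃ i < 16, 4096 * c + 256 * a + b + 2 ^ i = 65535 := by
  interval_cases c <;> decide +kernel

lemma chk (m : ℕ) (h : m < 65536) (h5 : hm m = 5) : ∃ i < 16, m + 2 ^ i = 65535 := by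
  have := chk0 (m / 4096) (by omega) (m % 4096 / 256) (by omega) (m % 256) (by omega)
  rw [show 4096 * (m / 4096) + 256 * (m % 4096 / 256) + m % 256 = m by omega] at this
  rw [hm_eq] at h5
  exact this (by rw [Nat.beq_eq]; omega)

lemma bs_iff (B : Finset (Fin 6)) : (#B = 3 ∧ B ∉ triangles) ↔ ∃ i, B = bs i := by
  revert B; decide +kernel

lemma land_eq {x y : Fin 16 → Bool} : Nat.ofBits x &&& Nat.ofBits y = 0 ↔ ¬ ∃ i, x i ∧ y i := by
  constructor
  · rintro h ⟨i, h1, h2⟩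
    have := congrArg (·.testBit i) h
    simp [Nat.testBit_ofBits_lt, h1, h2] at this
  · intro h
    refine Nat.zero_of_testBit_eq_false fun i => ?_
    by_cases hi : i < 16
    · simpa [Nat.testBit_ofBits_lt _ _ hi] using fun h1 => Bool.eq_false_iff.2 fun h2 => h ⟨_, h1, h2⟩
    · simp [Nat.testBit_ofBits_ge _ _ (not_lt.1 hi)]

open Classical in
lemma hTop_eq (N : Matroid (Fin 6)) (h : ∀ B : Finset (Fin 6), N.IsBase ↑B → ∃ i, B = bs i) :
    hTop N 3 = hm (Nat.ofBits fun i => decide (N.IsBase ↑(bs i))) := by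
  have h1 : ∀ I : Finset (Fin 6), N.Indep ↑I ↔
      ¬ (Nat.ofBits fun i => decide (N.IsBase ↑(bs i))) &&& mk I = 0 := fun I => by
    rw [mk, land_eq, not_not]
    constructor
    · intro hI
      obtain ⟨B, hB, hs⟩ := hI.exists_isBase_superset
      lift B to Finset (Fin 6) using B.toFinite
      obtain ⟨i, rfl⟩ := h B hB
      exact ⟨i, by simpa using hB, by simpa using hs⟩
    · rintro ⟨i, h1, h2⟩
      exact (of_decide_eq_true h1).indep.subset (by simpa using h2)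
  have h2 : ∀ I : Finset (Fin 6), mk I ≠ 0 → #I ≤ 3 := by decide +kernel
  rw [hm, ← Multiset.sum_coe, ← Multiset.map_coe, ← hL, Multiset.map_map, ← Finset.sum_eq_multiset_sum,
    hTop, sum_filter]
  simp only [card_filter, Nat.cast_sum, mul_sum]
  rw [sum_comm]
  refine sum_congr rfl fun I _ => ?_
  by_cases hI : N.Indep ↑I
  · have h3 := (h1 I).1 hI
    have h4 : mk I ≠ 0 := fun e => h3 (by simp [e])
    simp [hI, h3, h4, Nat.lt_succ_of_le (h2 I h4)]
  · simp [hI, not_not.1 ((h1 I).not.1 hI)]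

theorem result : ∃ M : Matroid (Fin 6), M.E = Set.univ ∧
    (∀ B : Finset (Fin 6), M.IsBase ↑B ↔ #B = 3 ∧ B ∉ triangles) ∧ M.eRank = 3 ∧ 1 ≤ hTop M 3 ∧
    ¬ ∃ N : Matroid (Fin 6), (∀ B, N.IsBase B → M.IsBase B) ∧ hTop N 3 = hTop M 3 - 1 := by
  classical
  let M := Pool.Agent.H28.Paving.pav 3 triangles (by norm_num) (by decide +kernel)
  have hb : ∀ B : Finset (Fin 6), M.IsBase ↑B ↔ #B = 3 ∧ B ∉ triangles := fun B => by
    rw [Pool.Agent.H28.Paving.pav_isBase (B0 := {0, 1, 2}) (by decide) (by decide), Set.ncard_coe_finset]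
    simp only [coe_subset]
    revert B; decide +kernel
  have hM : hTop M 3 = 6 := by
    rw [hTop_eq M fun B hB => (bs_iff B).1 ((hb B).1 hB)]
    have : (fun i => decide (M.IsBase ↑(bs i))) = fun _ => true := funext fun i => by
      simpa using (hb _).2 ((bs_iff _).2 ⟨i, rfl⟩)
    rw [this]; decide +kernel
  refine ⟨M, rfl, hb, ?_, by omega, ?_⟩
  · rw [← ((hb {0, 1, 2}).2 (by decide)).encard_eq_eRank, Set.encard_coe_eq_coe_finsetCard]; rfl
  rintro ⟨N, hN, h5⟩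
  have hN' := fun (B : Finset (Fin 6)) hB => (bs_iff B).1 ((hb B).1 (hN _ hB))
  rw [hTop_eq N hN', hM] at h5
  obtain ⟨k, hk, e⟩ := chk _ (Nat.ofBits_lt_two_pow _) h5
  have hx : ∀ i, N.IsBase ↑(bs i) ↔ i.1 ≠ k := fun i => by
    have := Nat.testBit_ofBits_lt (fun i => decide (N.IsBase ↑(bs i))) i i.2
    rw [Nat.eq_sub_of_add_eq e] at this
    have h : ∀ k < 16, ∀ i : Fin 16, (65535 - 2 ^ k).testBit i = decide (i.1 ≠ k) := by decide +kernel
    rw [h k hk] at this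
    exact (decide_eq_decide.1 this).symm
  have hc : ∀ k < 16, ∃ i j : Fin 16, i.1 ≠ k ∧ j.1 ≠ k ∧ ∃ a ∈ bs i \ bs j, ∀ c ∈ bs j \ bs i,
      ∀ l : Fin 16, insert c ((bs i).erase a) = bs l → l.1 = k := by decide +kernel
  obtain ⟨i, j, hi, hj, a, ha, hc⟩ := hc k hk
  obtain ⟨c, hc1, hc2⟩ := ((hx i).2 hi).exchange ((hx j).2 hj) (e := a) (by simpa using ha)
  have hc3 : N.IsBase ↑(insert c ((bs i).erase a)) := by simpa using hc2
  obtain ⟨l, hl⟩ := hN' _ hc3
  exact (hx l).1 (hl ▸ hc3) (hc c (by simpa using hc1) l hl)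

end Pool.Agent.Results.MP_35fef3_co.K4
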